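import Pool.Agent.Helper533.Deny.Final

/-!
# Polar `G_δ` sets are exactly the infinity sets of `𝒜`-superharmonic functions (MP_9b58c5_an, Q1)

For every `1 < p < ∞`, every `p`-admissible weight `w` on `ℝⁿ` (`μ = w dx` doubling with a weighted
`(1,p)`-Poincaré inequality), every operator `𝒜` with the structure conditions of the problem and
every `𝒜`-polar `G_δ` set `E ⊆ ℝⁿ` there is an `𝒜`-superharmonic function `u` in the whole space
with `E = {u = ∞}`.

The definitions are in `Pool/Agent/Helper533/Polar/Stmt.lean` (`Sp`, `wm`, `IsTest`, `IsH1`,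
`IsH1Loc`, `IsOperator`, `IsHarmonic`) and `Pool/Agent/Helper533/Deny/Stmt.lean` (`IsAdmissible`,
`IsSuperharmonic`, `IsPolar`).
-/

set_option autoImplicit false

namespace Pool.Agent.Results.MP_9b58c5_an.DenyTheorem

open Set Pool.Agent.Helper533.Polar.Stmt

/-- **Positive answer to Q1.** Every `𝒜`-polar `G_δ` set is the infinity set of an
`𝒜`-superharmonic function on `ℝⁿ`. -/
theorem result (n : ℕ) (hn : 1 ≤ n) (p α β : ℝ) (hp : 1 < p) (w : Sp n → ℝ)
    (hw : Pool.Agent.Helper533.Deny.IsAdmissible p w) (𝒜 : Sp n → Sp n → Sp n)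
    (hA : IsOperator p α β w 𝒜) (E : Set (Sp n)) (hE : IsGδ E)
    (hpol : Pool.Agent.Helper533.Deny.IsPolar 𝒜 p w E) :
    ∃ u : Sp n → EReal, Pool.Agent.Helper533.Deny.IsSuperharmonic 𝒜 p w univ u ∧
      E = {x | u x = ⊤} := by
  obtain ⟨u, hu, h⟩ := Pool.Agent.Helper533.Polar.deny_theorem hn hp hw hA hE hpol
  exact ⟨u, hu, h.symm⟩

end Pool.Agent.Results.MP_9b58c5_an.DenyTheorem
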